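import Mathlib
import Pool.Agent.V11327.SFmain

/-!
# MP_7a28e0_gt: a semifilter that is not strongly homogeneous (in ZFC)
-/

open Pool.Agent.V11327.SF

namespace Pool.Agent.Results.MP_7a28e0_gt.NotStronglyHomogeneous

/-- There is a semifilter `𝒮 ⊆ 2^ω` such that the nonempty clopen subset `{x ∈ 𝒮 : 0 ∈ x}` of `𝒮`
is not homeomorphic to `𝒮`; in particular `𝒮` is not strongly homogeneous. -/
theorem result :
    ∃ 𝒮 : Set C, IsSemifilter 𝒮 ∧
      IsClopen {x : 𝒮 | x.1 0 = true} ∧ {x : 𝒮 | x.1 0 = true}.Nonempty ∧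
      IsEmpty ({x : 𝒮 | x.1 0 = true} ≃ₜ 𝒮) ∧ ¬ StronglyHomogeneous 𝒮 := by
  refine ⟨S, S_semifilter, U_clopen, U_nonempty, ⟨fun h => no_homeo h⟩, fun hsh => ?_⟩
  obtain ⟨h⟩ := hsh U U_clopen U_nonempty
  exact no_homeo h

end Pool.Agent.Results.MP_7a28e0_gt.NotStronglyHomogeneous
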